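import Mathlib
import Pool.Agent.K3h44.HP.Un7

/-!
# Hall's inequality for the integral points with an `m`-th part of small degree

Every rational point `P` of `y ^ 2 = x ^ 3 + d` is `m Q` for algebraic points `Q` of degree at most
`m ^ 2` over `ℚ`. If `P` is integral and some `Q` has degree at most `D`, where `D` is less than
`5 m ^ 2 / 72`, then Hall's inequality holds for `P`, with a constant which depends only on `D` and
`m`: not on `d`, and not on the field generated by `Q`. This is also proved for divisibility modulo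
torsion, with the exponents `m ^ 2 / (3 (m ^ 2 - 12 D)) + ε`, and for the difference of two
integral points.

Since the number `t = X ^ 3 / d`, `Q = (X, Y)`, is not in a fixed number field, Roth's theorem
cannot be applied to `t`. It is applied to the (rational) coefficients of the minimal polynomial of
`1 / (t - c)`: all conjugates of `1 / (t - c)` are near to finitely many algebraic numbers.
-/

set_option autoImplicit false

namespace Pool.Agent.Results.MP_9d7cd1_nt.BoundedDegreeFields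

/-- The Mordell curve `y ^ 2 = x ^ 3 + d` over the field `K`, as a Weierstrass curve. -/
def mordell (K : Type) [Field K] (d : ℤ) : WeierstrassCurve.Affine K := ⟨0, 0, 0, 0, (d : K)⟩

/-- The point `(x, y)` of `y ^ 2 = x ^ 3 + d` is divisible by `m` over `K`, modulo torsion:
`k (x, y) = k (m Q)` for some `k ≠ 0` and a point `Q` over `K`. -/
def Divisible (K : Type) [Field K] [DecidableEq K] (m : ℕ) (d x y : ℤ) : Prop :=
  ∃ (h : (mordell K d).Nonsingular (x : K) (y : K)) (Q : (mordell K d).Point) (k : ℕ), k ≠ 0 ∧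
    k • (WeierstrassCurve.Affine.Point.some (x : K) (y : K) h : (mordell K d).Point) = k • (m • Q)

/-- The points `(x₁, y₁)` and `(x₂, y₂)` of `y ^ 2 = x ^ 3 + d` are congruent modulo `m` over `K`,
modulo torsion: `k ((x₁, y₁) - (x₂, y₂)) = k (m Q)` for some `k ≠ 0` and a point `Q` over `K`. -/
def Congruent (K : Type) [Field K] [DecidableEq K] (m : ℕ) (d x₁ y₁ x₂ y₂ : ℤ) : Prop :=
  ∃ (h₁ : (mordell K d).Nonsingular (x₁ : K) (y₁ : K))
    (h₂ : (mordell K d).Nonsingular (x₂ : K) (y₂ : K)) (Q : (mordell K d).Point) (k : ℕ), k ≠ 0 ∧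
    k • ((WeierstrassCurve.Affine.Point.some (x₁ : K) (y₁ : K) h₁ : (mordell K d).Point) -
      WeierstrassCurve.Affine.Point.some (x₂ : K) (y₂ : K) h₂) = k • (m • Q)

theorem mordell_eq (K : Type) [Field K] (d : ℤ) :
    mordell K d = Pool.Agent.Y674.TR.E K 0 d := by
  simp [mordell, Pool.Agent.Y674.TR.E]

/-- Let `D ≥ 1` and `m ≥ 2`. The constants `C` below do not depend on the number field `K`.
1. If `12 D < m ^ 2`, `κ > m ^ 2 / (3 (m ^ 2 - 12 D))`, there is `C` such that every integral point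
`(x, y)` of every Mordell curve `y ^ 2 = x ^ 3 + d`, `d ≠ 0`, which is divisible by `m` modulo
torsion over some number field `K` of degree at most `D`, satisfies `|x| ≤ C |d| ^ κ` and
`|y| ≤ C |d| ^ (3 κ / 2)` (Hall's inequality, if `κ = 2` and `72 D < 5 m ^ 2`).
2. For `η > 36 D / m ^ 2` there is `C` such that all integral points `(x₁, y₁)`, `(x₂, y₂)`,
`|x₂| ≤ |x₁|`, `x₁ ≠ x₂`, of all Mordell curves `y ^ 2 = x ^ 3 + d`, `d ≠ 0`, which are congruent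
modulo `m` modulo torsion over some number field `K` of degree at most `D`, satisfy
`|x₂| ^ 3 ≤ C |d| (|x₁| ^ 2 |x₂|) ^ η`.
3. If moreover `|x₁| ≤ |x₂| ^ A` and `36 D (2 A + 1) / m ^ 2 < 3 - 1 / κ`, then
`|x₂| ≤ C |d| ^ κ`. -/
theorem result (D m : ℕ) (hD : 1 ≤ D) (hm : 2 ≤ m) :
    (∀ κ : ℝ, 12 * D < m ^ 2 → (m : ℝ) ^ 2 / (3 * ((m : ℝ) ^ 2 - 12 * D)) < κ →
      ∃ C : ℝ, ∀ (K : Type) [Field K] [NumberField K] [DecidableEq K],
      Module.finrank ℚ K ≤ D → ∀ d x y : ℤ, d ≠ 0 → y ^ 2 = x ^ 3 + d →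
      Divisible K m d x y →
      |(x : ℝ)| ≤ C * |(d : ℝ)| ^ κ ∧ |(y : ℝ)| ≤ C * |(d : ℝ)| ^ (3 * κ / 2)) ∧
    (∀ η : ℝ, 36 * D / (m : ℝ) ^ 2 < η →
      ∃ C : ℝ, ∀ (K : Type) [Field K] [NumberField K] [DecidableEq K],
      Module.finrank ℚ K ≤ D → ∀ d x₁ y₁ x₂ y₂ : ℤ, d ≠ 0 →
      y₁ ^ 2 = x₁ ^ 3 + d → y₂ ^ 2 = x₂ ^ 3 + d → |x₂| ≤ |x₁| → x₁ ≠ x₂ →
      Congruent K m d x₁ y₁ x₂ y₂ →
      |(x₂ : ℝ)| ^ 3 ≤ C * |(d : ℝ)| * (|(x₁ : ℝ)| ^ 2 * |(x₂ : ℝ)|) ^ η) ∧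
    (∀ A κ : ℝ, 1 ≤ A → 0 < κ → 36 * D * (2 * A + 1) / (m : ℝ) ^ 2 < 3 - 1 / κ →
      ∃ C : ℝ, ∀ (K : Type) [Field K] [NumberField K] [DecidableEq K],
      Module.finrank ℚ K ≤ D → ∀ d x₁ y₁ x₂ y₂ : ℤ, d ≠ 0 →
      y₁ ^ 2 = x₁ ^ 3 + d → y₂ ^ 2 = x₂ ^ 3 + d → |x₂| ≤ |x₁| → x₁ ≠ x₂ →
      |(x₁ : ℝ)| ≤ |(x₂ : ℝ)| ^ A → Congruent K m d x₁ y₁ x₂ y₂ →
      |(x₂ : ℝ)| ≤ C * |(d : ℝ)| ^ κ) := by
  refine ⟨?_, ?_, ?_⟩
  · intro κ hDm hκ
    obtain ⟨C, hC⟩ := Pool.Agent.K3h44.HP.divAD D m hD hDm κ hκ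
    refine ⟨C, ?_⟩
    rintro K _ _ _ hK d x y hd hxy ⟨h, Q, k, hk, hP⟩
    have hC' := hC K hK d x y hd hxy
    rw [← mordell_eq] at hC'
    exact hC' h Q k hk hP
  · intro η hη
    obtain ⟨C, -, hC⟩ := Pool.Agent.K3h44.HP.divBD D m hD hm η hη
    refine ⟨C, ?_⟩
    rintro K _ _ _ hK d x₁ y₁ x₂ y₂ hd e₁ e₂ hle hne ⟨h₁, h₂, Q, k, hk, hP⟩
    have hC' := hC K hK d x₁ y₁ x₂ y₂ hd e₁ e₂ hle hne
    rw [← mordell_eq] at hC'
    exact hC' h₁ h₂ Q k hk hP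
  · intro A κ hA hκ hAκ
    obtain ⟨C, hC⟩ := Pool.Agent.K3h44.HP.divBD' D m hD hm A κ hA hκ hAκ
    refine ⟨C, ?_⟩
    rintro K _ _ _ hK d x₁ y₁ x₂ y₂ hd e₁ e₂ hle hne hxA ⟨h₁, h₂, Q, k, hk, hP⟩
    have hC' := hC K hK d x₁ y₁ x₂ y₂ hd e₁ e₂ hle hne hxA
    rw [← mordell_eq] at hC'
    exact hC' h₁ h₂ Q k hk hP

end Pool.Agent.Results.MP_9d7cd1_nt.BoundedDegreeFields
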