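import Pool.Agent.K3h44.SQ.Asm
import Pool.Agent.K3h44.SQ.Asm2
import Pool.Agent.K3h17.SQ.DESC
import Pool.Agent.K3h20.SQ.SEL2
import Pool.Agent.K3h35.SQ.FLD
import Pool.Agent.K3h64.SQ.RTH
import Pool.Agent.K3h66.SQ.SEL
import Pool.Agent.K3h79.SQ.FLD3
import Pool.Agent.K3h90.SQ.FLD2
import Pool.Agent.K3h96.SQ.DESC2

/-!
# Hall's inequality for the Mordell curves with `d` in a fixed class modulo squares or cubes

Let `a ≠ 0` be an integer. The coprime integral points `(x, y)` of all the curves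
`y ^ 2 = x ^ 3 + d` with `d = a b ^ 2`, `b ≠ 0`, satisfy `|x| ≤ C |d| ^ (1 + ε)`, and those of all
the curves with `d = a b ^ 3` satisfy `|x| ≤ C |d| ^ (4 / 3 + ε)`; here `C` depends on `a` and `ε`
only.

Proof. 1. Let `K` be the field generated by `√a`. Since `x` and `y` are coprime, the ideal generated
by `y + b √a` is a cube away from two, and as the class group of `K` is finite and its units are
finitely generated, `y + b √a = η₁ β₁ ^ 3` and `y - b √a = η₂ β₂ ^ 3`, where `η₁, η₂` belong to a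
finite set which depends on `a` only and `β₁, β₂` are integers of `K`. If `|x| ^ 3 ≥ 16 |d|`, the
absolute values of `β₁`, `β₂` are of the order of `|x| ^ (1 / 2)` at all places, and
`η₁ β₁ ^ 3 - η₂ β₂ ^ 3 = 2 b √a` has the absolute value `2 |d| ^ (1 / 2)` at all places. So `β₂ / β₁`
is near to a cube root of `η₁ / η₂` at all archimedean places, and Roth's theorem over `K` gives
`2 |d| ^ (1 / 2) ≥ c |x| ^ ((1 - ε) / 2)`.
2. Let `d = a b ^ 3` and let `K` be a field which contains the roots of `X ^ 3 + a`. The numbers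
`x - b τ` are squares up to a factor from a finite set, so they are squares in a number field `L`
which depends on `a` only, and the point `(x, y)` is the double of a point with coordinates in `L`.
The theorem for such points (starting library, Roth's theorem over `L`) gives the exponent `4 / 3`.
-/

set_option autoImplicit false

namespace Pool.Agent.Results.MP_9d7cd1_nt.FixedPowerClass

/-- Let `a` be a nonzero integer, `M` a positive integer and `ε > 0`. There is a constant `C` such that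
for all integers `b ≠ 0`, `x`, `y` for which all common prime divisors of `x` and `y` divide `M`: if
`(x, y)` is a point of the Mordell curve `y ^ 2 = x ^ 3 + d` with `d = a b ^ 2` then
`|x| ≤ C |d| ^ (1 + ε)` and `|y| ≤ C |d| ^ (3 (1 + ε) / 2)`, and if it is a point of the curve with
`d = a b ^ 3` then `|x| ≤ C |d| ^ (4 / 3 + ε)` and `|y| ≤ C |d| ^ (2 + ε)`. -/
theorem result (a : ℤ) (ha : a ≠ 0) (M : ℕ) (hM : M ≠ 0) (ε : ℝ) (hε : 0 < ε) :
    ∃ C : ℝ, ∀ b x y : ℤ, b ≠ 0 → (∀ q : ℕ, q.Prime → (q : ℤ) ∣ x → (q : ℤ) ∣ y → q ∣ M) →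
      (y ^ 2 = x ^ 3 + a * b ^ 2 →
        |(x : ℝ)| ≤ C * |((a * b ^ 2 : ℤ) : ℝ)| ^ (1 + ε) ∧
        |(y : ℝ)| ≤ C * |((a * b ^ 2 : ℤ) : ℝ)| ^ (3 * (1 + ε) / 2)) ∧
      (y ^ 2 = x ^ 3 + a * b ^ 3 →
        |(x : ℝ)| ≤ C * |((a * b ^ 3 : ℤ) : ℝ)| ^ (4 / 3 + ε) ∧
        |(y : ℝ)| ≤ C * |((a * b ^ 3 : ℤ) : ℝ)| ^ (2 + ε)) := by
  obtain ⟨C₁, h1⟩ := Pool.Agent.K3h44.SQ.asm Pool.Agent.K3h66.SQ.t_SEL Pool.Agent.K3h64.SQ.t_RTH
    Pool.Agent.K3h17.SQ.t_DESC Pool.Agent.K3h35.SQ.t_FLD a ha M hM ε hε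
  obtain ⟨C₂, h2⟩ := Pool.Agent.K3h44.SQ.asm2 Pool.Agent.K3h20.SQ.t_SEL2
    Pool.Agent.K3h96.SQ.t_DESC2 Pool.Agent.K3h90.SQ.t_FLD2 Pool.Agent.K3h79.SQ.t_FLD3 a ha M hM
    ε hε
  refine ⟨max C₁ C₂, fun b x y hb hg => ⟨fun h => ?_, fun h => ?_⟩⟩
  · obtain ⟨k1, k2⟩ := h1 b x y hb h hg
    exact ⟨k1.trans (mul_le_mul_of_nonneg_right (le_max_left _ _) (by positivity)),
      k2.trans (mul_le_mul_of_nonneg_right (le_max_left _ _) (by positivity))⟩
  · obtain ⟨k1, k2⟩ := h2 b x y hb h hg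
    exact ⟨k1.trans (mul_le_mul_of_nonneg_right (le_max_right _ _) (by positivity)),
      k2.trans (mul_le_mul_of_nonneg_right (le_max_right _ _) (by positivity))⟩

end Pool.Agent.Results.MP_9d7cd1_nt.FixedPowerClass
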