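import Mathlib
import Pool.Agent.K3h44.HP.DivA

/-!
# Hall's inequality for the integral points that are divisible by `m ≥ 4` modulo torsion over a
# number field, with exponents tending to `1 / 3`

All Mordell curves `y ^ 2 = x ^ 3 + d`, `d ≠ 0`, are treated simultaneously. In the coordinate
`t = X ^ 3 / d` the multiplication by `m` of all these curves is one rational function `R` with
integral coefficients, `x ^ 3 / d = R (t)` if `(x, y) = m (X, Y)`. It has degree `m ^ 2`, so that
`m ^ 2 h(t) = h(x ^ 3 / d) + O(1)`; its poles are simple at infinity and of order at most six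
elsewhere, since multiplication by `m` is unramified and `t` has degree six. The numbers `t` lie in
a fixed number field, so Roth's theorem (at all archimedean places at the same time) can be applied
to their distances from the poles, and `|x ^ 3 / d| ≤ C max(|x| ^ 3, |d|) ^ ((12 + ε) / m ^ 2)`.
-/

set_option autoImplicit false

namespace Pool.Agent.Results.MP_9d7cd1_nt.HighlyDivisiblePoints

/-- The Mordell curve `y ^ 2 = x ^ 3 + d` over the field `K`, as a Weierstrass curve. -/
def mordell (K : Type) [Field K] (d : ℤ) : WeierstrassCurve.Affine K := ⟨0, 0, 0, 0, (d : K)⟩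

/-- Let `K` be a number field, `m ≥ 4` and `κ > m ^ 2 / (3 (m ^ 2 - 12))`. There is a constant `C`
such that every integral point `P = (x, y)` of every Mordell curve `y ^ 2 = x ^ 3 + d`, `d ≠ 0`,
which is divisible by `m` modulo torsion over `K`, that is, `k P = k (m Q)` for some `k ≠ 0` and
some point `Q` of the curve with coordinates in `K` (or `Q = 0`), satisfies `|x| ≤ C |d| ^ κ` and
`|y| ≤ C |d| ^ (3 κ / 2)`. -/
theorem result (K : Type) [Field K] [NumberField K] [DecidableEq K] (m : ℕ) (hm : 4 ≤ m)
    (κ : ℝ) (hκ : (m : ℝ) ^ 2 / (3 * ((m : ℝ) ^ 2 - 12)) < κ) :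
    ∃ C : ℝ, ∀ d x y : ℤ, d ≠ 0 → y ^ 2 = x ^ 3 + d →
      ∀ (h : (mordell K d).Nonsingular (x : K) (y : K)) (Q : (mordell K d).Point) (k : ℕ),
      k ≠ 0 →
      k • (WeierstrassCurve.Affine.Point.some (x : K) (y : K) h : (mordell K d).Point) =
        k • (m • Q) →
      |(x : ℝ)| ≤ C * |(d : ℝ)| ^ κ ∧ |(y : ℝ)| ≤ C * |(d : ℝ)| ^ (3 * κ / 2) :=
  Pool.Agent.K3h44.HP.divA K m hm κ hκ (mordell K) fun d => by
    simp [mordell, Pool.Agent.Y674.TR.E]

end Pool.Agent.Results.MP_9d7cd1_nt.HighlyDivisiblePoints
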