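import Mathlib
import Pool.Agent.K3h2.HL.Main

/-!
# MP_9d7cd1_nt: Hall's conjecture for all integral points whose abscissa has a dominating smooth
# term and compressible further digits

Let `S` be a finite set of primes and let `b 0, b 1, ...` be finitely many bases. The abscissa `x` is
assumed to satisfy `c x = h u + g 0 * w 0 + g 1 * w 1 + ...` with `1 ≤ c ≤ H`, `0 < |h| ≤ H`,
natural numbers `u`, `g i` with all prime factors in `S`, and with values `w i` in base `b i` of words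
of `N i` letters of absolute value at most `B` which are cut into `z` Lempel-Ziv phrases (each phrase
is a single letter or a copy of a block that begins further to the left, possibly overlapping).
The term `h u` dominates: `g i * b i ^ N i ≤ u ^ (1 - η)`. For instance, with one base: the digits
of `x` begin with `U v v v ...`, with bounded blocks `U`, `v`, over a fixed proportion of the length,
and the remaining digits form a word with boundedly many phrases of any lengths and periods.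

1. For all `ε > 0` there is `C` such that `log |x| < (2 + ε) log |d| + C` for ALL integers `y` and all
   such `x`, if `d = y ^ 2 - x ^ 3 ≠ 0`.

2. More generally, if `y ^ q ≠ x ^ p`, then
   `max (|x| ^ p, |y| ^ q) ^ (1 - 1 / p - 1 / q - ε) ≤ C |y ^ q - x ^ p|`.

The ordinate `y` is arbitrary. The number of nonzero digits, of blocks of digits and of summands is
not bounded here: the periods of the phrases may have any sizes. The proof: if no period has a size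
between `δ' log u` and `δ log u`, then an integer `D = u ^ o(1)` makes `D w` a sum of boundedly many
`v b ^ l` with `l ≥ 0`, `b ^ l ≤ u ^ (1 - η / 2)` (the terms with large exponents cancel); the
inequality for sparse abscissas with moving coefficients, whose leading coefficient is a bounded
number times a `q`-th power, applies to `(c D) ^ q x`, `(c D) ^ p y`; one of finitely many scales
works.
-/

set_option autoImplicit false

namespace Pool.Agent.Results.MP_9d7cd1_nt.LempelZivAbscissa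

open Finset

/-- the first `N` letters of `a` are cut into `z` phrases: each phrase is a single letter, or the
(possibly empty) continuation of the preceding letters with some period `p` -/
def LZ (a : ℕ → ℤ) (N z : ℕ) : Prop :=
  ∃ c : ℕ → ℕ, c 0 = 0 ∧ c z = N ∧ ∀ i < z, c (i + 1) = c i + 1 ∨
    (c i ≤ c (i + 1) ∧ ∃ p, 0 < p ∧ p ≤ c i ∧ ∀ j, c i ≤ j → j < c (i + 1) → a j = a (j - p))

/-- `w` is the value in base `b` of a word of `N` integral letters of absolute value at most `B`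
which is cut into `z` phrases; the first letter is the highest or the lowest one -/
def Word (b z : ℕ) (B : ℤ) (N : ℕ) (w : ℤ) : Prop :=
  ∃ a : ℕ → ℤ, LZ a N z ∧ (∀ j < N, |a j| ≤ B) ∧
    (w = ∑ j ∈ range N, (b : ℤ) ^ (N - 1 - j) * a j ∨ w = ∑ j ∈ range N, (b : ℤ) ^ j * a j)

/-- `x` is the abscissa: `c x = h u + ∑ i, g i * w i` as in the header -/
def Abscissa (S : Finset ℕ) {r : ℕ} (b : Fin r → ℕ) (z H : ℕ) (B : ℤ) (η : ℝ) (x : ℤ) : Prop :=
  ∃ (c h : ℤ) (u : ℕ) (g N : Fin r → ℕ) (w : Fin r → ℤ), 1 ≤ c ∧ c ≤ H ∧ h ≠ 0 ∧ |h| ≤ H ∧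
    (u ≠ 0 ∧ u.primeFactors ⊆ S) ∧ (∀ i, g i ≠ 0 ∧ (g i).primeFactors ⊆ S) ∧
    (∀ i, Word (b i) z B (N i) (w i)) ∧
    (∀ i, (g i : ℝ) * (b i : ℝ) ^ N i ≤ (u : ℝ) ^ (1 - η)) ∧
    c * x = h * u + ∑ i, (g i : ℤ) * w i

lemma geom_le {b : ℕ} (hb : 2 ≤ b) (N : ℕ) : ∑ j ∈ range N, (b : ℤ) ^ j ≤ (b : ℤ) ^ N := by
  induction N with
  | zero => simp
  | succ N ih =>
    rw [Finset.sum_range_succ, pow_succ]
    have h1 : (0 : ℤ) ≤ (b : ℤ) ^ N := by positivity
    have h2 : (2 : ℤ) ≤ b := by exact_mod_cast hb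
    nlinarith

lemma value_le {b : ℕ} (hb : 2 ≤ b) {z : ℕ} {B : ℤ} (hB : 0 ≤ B) {N : ℕ} {w : ℤ}
    (h : Word b z B N w) : |w| ≤ B * (b : ℤ) ^ N := by
  obtain ⟨a, -, ha, hw⟩ := h
  have hb0 : (0 : ℤ) ≤ b := Int.natCast_nonneg _
  have key : ∀ f : ℕ → ℕ, ∑ j ∈ range N, (b : ℤ) ^ f j ≤ (b : ℤ) ^ N →
      |∑ j ∈ range N, (b : ℤ) ^ f j * a j| ≤ B * (b : ℤ) ^ N := by
    intro f hf
    refine (Finset.abs_sum_le_sum_abs _ _).trans ?_
    calc ∑ j ∈ range N, |(b : ℤ) ^ f j * a j| ≤ ∑ j ∈ range N, B * (b : ℤ) ^ f j := by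
          refine Finset.sum_le_sum fun j hj => ?_
          rw [abs_mul, abs_of_nonneg (pow_nonneg hb0 _), mul_comm]
          exact mul_le_mul_of_nonneg_right (ha j (Finset.mem_range.1 hj)) (pow_nonneg hb0 _)
      _ = B * ∑ j ∈ range N, (b : ℤ) ^ f j := by rw [Finset.mul_sum]
      _ ≤ _ := mul_le_mul_of_nonneg_left hf hB
  rcases hw with rfl | rfl
  · refine key (fun j => N - 1 - j) ?_
    rw [Finset.sum_range_reflect (fun j => (b : ℤ) ^ j) N]
    exact geom_le hb N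
  · exact key (fun j => j) (geom_le hb N)

theorem general (p q : ℕ) (hp : 1 ≤ p) (hq : 1 ≤ q) (S : Finset ℕ) (r : ℕ) (b : Fin r → ℕ)
    (hb : ∀ i, 2 ≤ b i) (z H : ℕ) (B : ℤ) (hB : 0 ≤ B) (η ε : ℝ) (hη : 0 < η) (hε : 0 < ε) :
    ∃ C : ℝ, 0 < C ∧ ∀ x y : ℤ, Abscissa S b z H B η x → y ^ q ≠ x ^ p →
      (max (|(x : ℝ)| ^ p) (|(y : ℝ)| ^ q)) ^ (1 - 1 / (p : ℝ) - 1 / (q : ℝ) - ε) ≤
        C * |(y : ℝ) ^ q - (x : ℝ) ^ p| := by
  obtain ⟨C, hC⟩ := Pool.Agent.K3h2.HL.core (H := H) hp hq (S := S) hb z hB hη hε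
  refine ⟨max C 1, lt_of_lt_of_le one_pos (le_max_right _ _), ?_⟩
  rintro x y ⟨c, h, u, g, N, w, hc1, hcH, hh0, hhH, hu, hg, hw, hdom, hx⟩ hne
  have hu1 : (1 : ℝ) ≤ u := by exact_mod_cast Nat.pos_of_ne_zero hu.1
  have hlu : 0 ≤ Real.log u := Real.log_nonneg hu1
  refine (hC ⟨x, y, c, h, u, g, N, w⟩ (fun i => ?_) ⟨hne, hc1, hcH, hh0, hhH, hu, hg,
    fun i => value_le (hb i) hB (hw i), hdom, hx⟩).trans
    (mul_le_mul_of_nonneg_right (le_max_left _ _) (abs_nonneg _))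
  obtain ⟨a, ha1, ha2, ha3⟩ := hw i
  refine ⟨a, N i, ?_, ha2, ?_, ha3⟩
  · obtain ⟨k, hk0, hkz, hk⟩ := ha1
    refine ⟨k, hk0, hkz, fun j hj => ?_⟩
    rcases hk j hj with h1 | ⟨h1, p, h2, h3, h4⟩
    · exact Or.inl h1
    · exact Or.inr ⟨h1, p, h2, h3, h4⟩
  · show (N i : ℝ) * Real.log (b i) ≤ 1 * (1 + Real.log u)
    have h1 : (b i : ℝ) ^ N i ≤ u := by
      have h2 : (1 : ℝ) ≤ g i := by exact_mod_cast Nat.pos_of_ne_zero (hg i).1
      have h3 : (0 : ℝ) ≤ (b i : ℝ) ^ N i := by positivity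
      calc (b i : ℝ) ^ N i ≤ g i * (b i : ℝ) ^ N i := by nlinarith
        _ ≤ (u : ℝ) ^ (1 - η) := hdom i
        _ ≤ (u : ℝ) ^ (1 : ℝ) := Real.rpow_le_rpow_of_exponent_le hu1 (by linarith)
        _ = u := Real.rpow_one _
    have h2 : (0 : ℝ) < b i := by
      have := hb i
      have : 0 < b i := by omega
      exact_mod_cast this
    have h3 := Real.log_le_log (by positivity) h1
    rw [Real.log_pow] at h3
    linarith

theorem result :
    (∀ (S : Finset ℕ) (r : ℕ) (b : Fin r → ℕ), (∀ i, 2 ≤ b i) → ∀ (z H : ℕ) (B : ℤ), 0 ≤ B →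
      ∀ η ε : ℝ, 0 < η → 0 < ε → ∃ C : ℝ, ∀ d x y : ℤ, d ≠ 0 → y ^ 2 = x ^ 3 + d →
        Abscissa S b z H B η x →
        Real.log |(x : ℝ)| < (2 + ε) * Real.log |(d : ℝ)| + C) ∧
    (∀ p q : ℕ, 1 ≤ p → 1 ≤ q → ∀ (S : Finset ℕ) (r : ℕ) (b : Fin r → ℕ), (∀ i, 2 ≤ b i) →
      ∀ (z H : ℕ) (B : ℤ), 0 ≤ B → ∀ η ε : ℝ, 0 < η → 0 < ε →
      ∃ C : ℝ, 0 < C ∧ ∀ x y : ℤ, Abscissa S b z H B η x → y ^ q ≠ x ^ p →
        (max (|(x : ℝ)| ^ p) (|(y : ℝ)| ^ q)) ^ (1 - 1 / (p : ℝ) - 1 / (q : ℝ) - ε) ≤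
          C * |(y : ℝ) ^ q - (x : ℝ) ^ p|) := by
  refine ⟨?_, fun p q hp hq S r b hb z H B hB η ε hη hε =>
    general p q hp hq S r b hb z H B hB η ε hη hε⟩
  intro S r b hb z H B hB η ε hη hε
  obtain ⟨δ, hδ⟩ : ∃ δ : ℝ, δ = (1 / 2 - 1 / (2 + ε)) / 3 := ⟨_, rfl⟩
  have hδ0 : 0 < δ := by
    rw [hδ]
    have h1 : 1 / (2 + ε) < 1 / 2 := one_div_lt_one_div_of_lt (by norm_num) (by linarith)
    linarith
  obtain ⟨K, hK0, hK⟩ := general 3 2 (by norm_num) (by norm_num) S r b hb z H B hB η δ hη hδ0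
  refine ⟨(2 + ε) * |Real.log K| + 1, ?_⟩
  rintro d x y hd hxy hx
  have hd1 : (1 : ℝ) ≤ |(d : ℝ)| := by
    have : 1 ≤ |d| := Int.one_le_abs hd
    exact_mod_cast this
  have hlogd : 0 ≤ Real.log |(d : ℝ)| := Real.log_nonneg hd1
  have hpos : 0 ≤ (2 + ε) * |Real.log K| := by positivity
  by_cases hx0 : x = 0
  · rw [hx0, Int.cast_zero, abs_zero, Real.log_zero]
    nlinarith
  have hx1 : 0 < |(x : ℝ)| := abs_pos.2 (by exact_mod_cast hx0)
  have h1 := hK x y hx (by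
    rw [hxy]
    intro h2
    apply hd
    linarith)
  have h2 : (y : ℝ) ^ 2 - (x : ℝ) ^ 3 = d := by
    have h3 : ((y ^ 2 : ℤ) : ℝ) = ((x ^ 3 + d : ℤ) : ℝ) := by rw [hxy]
    push_cast at h3
    linarith
  rw [h2] at h1
  have hexp : 1 - 1 / ((3 : ℕ) : ℝ) - 1 / ((2 : ℕ) : ℝ) - δ = 1 / (3 * (2 + ε)) := by
    rw [hδ]
    have : (2 : ℝ) + ε ≠ 0 := by positivity
    push_cast
    field_simp
    ring
  rw [hexp] at h1
  have h3 : |(x : ℝ)| ^ (1 / (2 + ε)) ≤ K * |(d : ℝ)| := by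
    refine le_trans ?_ h1
    calc |(x : ℝ)| ^ (1 / (2 + ε)) = (|(x : ℝ)| ^ 3) ^ (1 / (3 * (2 + ε))) := by
          rw [← Real.rpow_natCast, ← Real.rpow_mul hx1.le]
          congr 1
          have : (2 : ℝ) + ε ≠ 0 := by positivity
          push_cast
          field_simp
      _ ≤ _ := Real.rpow_le_rpow (by positivity) (le_max_left _ _) (by positivity)
  have h4 := Real.log_le_log (by positivity) h3
  rw [Real.log_rpow hx1, Real.log_mul hK0.ne' (by positivity)] at h4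
  have h5 : Real.log |(x : ℝ)| ≤ (2 + ε) * (Real.log K + Real.log |(d : ℝ)|) := by
    have h6 : 0 < 2 + ε := by positivity
    have h7 : Real.log |(x : ℝ)| = (2 + ε) * (1 / (2 + ε) * Real.log |(x : ℝ)|) := by
      field_simp
    rw [h7]
    exact mul_le_mul_of_nonneg_left h4 h6.le
  have h6 : (2 + ε) * Real.log K ≤ (2 + ε) * |Real.log K| :=
    mul_le_mul_of_nonneg_left (le_abs_self _) (by positivity)
  nlinarith

end Pool.Agent.Results.MP_9d7cd1_nt.LempelZivAbscissa
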